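import Pool.Agent.L7h52.NQ.Stm
import Pool.Agent.TH603.EL.Scal1

/-! Project NQ (helper52), part THETA. -/

set_option autoImplicit false
set_option linter.unusedVariables false

namespace Pool.Agent.L7h64.NQ

open MvPolynomial Pool.Agent.TH603.EL Pool.Agent.L7h52.NQ
open Pool.Agent.TH603.EL.Scal1 (tz_mul_tz tz_pow)

variable {F : Type} [Field F]

/-- `cf` as an additive map -/
noncomputable def cfA (a : ℝ) (i j : ℤ) : HR F →+ F where
  toFun x := cf x a i j
  map_zero' := by simp [cf]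
  map_add' x y := by simp [cf]

theorem cfA_apply (x : HR F) (a : ℝ) (i j : ℤ) : cfA a i j x = cf x a i j := rfl

theorem term (c : HK F) (τ s : ℝ) (p q : ℕ) (a : ℝ) (i j : ℤ) :
    cf (incl c * (tz F τ 1 0 ^ p * (tz F (1 - τ) (-1) 0 + tz F (s - τ) (-1) 1) ^ q)) a i j =
      if (p : ℤ) - (q : ℤ) = i ∧ 0 ≤ j then
        (q.choose j.toNat : F) *
          c.coeff (a - (p : ℝ) * τ - (q : ℝ) * (1 - τ) - (j : ℝ) * (s - 1))
      else 0 := by
  classical
  have h1 : incl c * (tz F τ 1 0 ^ p * (tz F (1 - τ) (-1) 0 + tz F (s - τ) (-1) 1) ^ q) =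
      ∑ k ∈ Finset.range (q + 1), q.choose k • (tz F ((p : ℝ) * τ + (q : ℝ) * (1 - τ) +
        (k : ℝ) * (s - 1)) ((p : ℤ) - (q : ℤ)) (k : ℤ) * incl c) := by
    rw [add_comm (tz F (1 - τ) (-1) 0), add_pow, Finset.mul_sum, Finset.mul_sum]
    apply Finset.sum_congr rfl
    intro k hk
    have hk' : k ≤ q := by simpa [Nat.lt_succ_iff] using hk
    have h2 : tz F τ 1 0 ^ p * (tz F (s - τ) (-1) 1 ^ k * tz F (1 - τ) (-1) 0 ^ (q - k)) =
        tz F ((p : ℝ) * τ + (q : ℝ) * (1 - τ) + (k : ℝ) * (s - 1)) ((p : ℤ) - (q : ℤ)) (k : ℤ) := by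
      rw [tz_pow, tz_pow, tz_pow, tz_mul_tz, tz_mul_tz]
      push_cast [Nat.cast_sub hk']
      congr 1 <;> ring
    rw [← h2, nsmul_eq_mul]
    ring
  rw [h1, ← cfA_apply, map_sum]
  have h3 : ∀ k ∈ Finset.range (q + 1), cfA a i j (q.choose k • (tz F ((p : ℝ) * τ + (q : ℝ) * (1 - τ) +
        (k : ℝ) * (s - 1)) ((p : ℤ) - (q : ℤ)) (k : ℤ) * incl c)) =
      if (p : ℤ) - (q : ℤ) = i ∧ j = (k : ℤ) then (q.choose k : F) *
        c.coeff (a - ((p : ℝ) * τ + (q : ℝ) * (1 - τ) + (k : ℝ) * (s - 1))) else 0 := by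
    intro k hk
    rw [map_nsmul, cfA_apply, cf_tz_mul, cf_incl, nsmul_eq_mul]
    by_cases h : (p : ℤ) - (q : ℤ) = i ∧ j = (k : ℤ)
    · rw [if_pos h, if_pos ⟨by rw [h.1]; ring, by rw [h.2]; ring⟩]
    · rw [if_neg h, if_neg, mul_zero]
      rintro ⟨h4, h5⟩
      exact h ⟨by linarith, by linarith⟩
  rw [Finset.sum_congr rfl h3]
  by_cases h : (p : ℤ) - (q : ℤ) = i ∧ 0 ≤ j
  · rw [if_pos h]
    obtain ⟨n, rfl⟩ := Int.eq_ofNat_of_zero_le h.2
    simp only [Int.toNat_natCast, Nat.cast_inj, Int.cast_natCast]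
    by_cases hn : n ≤ q
    · rw [Finset.sum_eq_single n]
      · rw [if_pos ⟨h.1, rfl⟩]
        congr 2
        ring
      · intro k _ hkn
        rw [if_neg]
        rintro ⟨_, h5⟩
        exact hkn h5.symm
      · intro hn'
        exact absurd (Finset.mem_range.2 (Nat.lt_succ_of_le hn)) hn'
    · rw [Nat.choose_eq_zero_of_lt (not_le.1 hn), Nat.cast_zero, zero_mul]
      apply Finset.sum_eq_zero
      intro k hk
      rw [if_neg]
      rintro ⟨_, h5⟩
      have := Finset.mem_range.1 hk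
      omega
  · rw [if_neg h]
    apply Finset.sum_eq_zero
    intro k hk
    rw [if_neg]
    rintro ⟨h4, h5⟩
    exact h ⟨h4, by omega⟩

/-- **THETA** -/
theorem s_THETA : S_THETA := by
  intro F _ τ s P a i j
  rw [← cfA_apply]
  have h1 : th F τ s P = ∑ m ∈ P.support, incl (P.coeff m) *
      (tz F τ 1 0 ^ (m 0) * (tz F (1 - τ) (-1) 0 + tz F (s - τ) (-1) 1) ^ (m 1)) := by
    unfold th
    rw [coe_eval₂Hom, eval₂_eq']
    apply Finset.sum_congr rfl
    intro m _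
    rw [Fin.prod_univ_two]
    simp
  rw [h1, map_sum]
  apply Finset.sum_congr rfl
  intro m _
  exact term _ _ _ _ _ _ _ _

end Pool.Agent.L7h64.NQ
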